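import Pool.Agent.H83.G.Targets2

/-!
Theorem G (MP_ee74d2_an): elementary facts on `TF`.
-/

set_option autoImplicit false

namespace Pool.Agent.H61.G

open MeasureTheory Set Pool.Agent.H83.G
open scoped ENNReal NNReal RealInnerProductSpace

variable {m : ℕ}

theorem norm_e (x : ℝ) : ‖e x‖ = 1 := by
  unfold e
  exact Complex.norm_exp_ofReal_mul_I _

theorem cont_e : Continuous e := by
  unfold e
  fun_prop

theorem cont_ph (z : Z m) : Continuous (fun ζ : Z m => ph z ζ) := by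
  unfold ph
  fun_prop

theorem tc_int {G : Z m → ℂ} (hG : TC G) (z : Z m) :
    Integrable (fun ζ : Z m => e (ph z ζ) * G ζ) := by
  have h1 : Continuous (fun ζ : Z m => e (ph z ζ) * G ζ) :=
    (cont_e.comp (cont_ph z)).mul hG.1.continuous
  refine h1.integrable_of_hasCompactSupport ?_
  exact hG.2.mul_left

theorem tc_sum {ι : Type} {I : Finset ι} {G : ι → Z m → ℂ} (hG : ∀ k ∈ I, TC (G k)) :
    TC (fun ζ => ∑ k ∈ I, G k ζ) := by
  classical
  induction I using Finset.induction_on with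
  | empty =>
    simp only [Finset.sum_empty]
    exact ⟨contDiff_const, HasCompactSupport.zero⟩
  | insert a s ha ih =>
    simp only [Finset.sum_insert ha]
    have h1 := hG a (Finset.mem_insert_self a s)
    have h2 := ih fun k hk => hG k (Finset.mem_insert_of_mem hk)
    exact ⟨h1.1.add h2.1, h1.2.add h2.2⟩

theorem TF_sum {ι : Type} {I : Finset ι} {G : ι → Z m → ℂ} (hG : ∀ k ∈ I, TC (G k)) (z : Z m) :
    TF (fun ζ => ∑ k ∈ I, G k ζ) z = ∑ k ∈ I, TF (G k) z := by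
  unfold TF
  rw [← integral_finsetSum _ (fun k hk => tc_int (hG k hk) z)]
  refine integral_congr_ae (ae_of_all _ fun ζ => ?_)
  simp only
  rw [Finset.mul_sum]

theorem TF_const (c : ℂ) (G : Z m → ℂ) (z : Z m) : TF (fun ζ => c * G ζ) z = c * TF G z := by
  unfold TF
  rw [← integral_const_mul]
  refine integral_congr_ae (ae_of_all _ fun ζ => ?_)
  simp only
  ring

theorem wt_pos (N : ℕ) (z : Z m) : 0 < wt N z := by
  unfold wt
  positivity

theorem wt_le_one (N : ℕ) (z : Z m) : wt N z ≤ 1 := by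
  unfold wt
  refine inv_le_one_of_one_le₀ (one_le_pow₀ ?_)
  have := norm_nonneg z
  linarith

theorem wt_ge (N : ℕ) (z : Z m) {r : ℝ} (hz : ‖z‖ ≤ r) : ((1 + r) ^ N)⁻¹ ≤ wt N z := by
  unfold wt
  have h0 := norm_nonneg z
  exact inv_anti₀ (by positivity) (pow_le_pow_left₀ (by positivity) (by linarith) N)

theorem sR_pos {R : ℝ} (hR : 1 ≤ R) : 0 < sR R := by
  unfold sR
  have : 0 < Real.sqrt R := Real.sqrt_pos.2 (by linarith)
  positivity

theorem sR_sq {R : ℝ} (hR : 1 ≤ R) : sR R ^ 2 * R = 1 := by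
  unfold sR
  rw [inv_pow, Real.sq_sqrt (by linarith)]
  exact inv_mul_cancel₀ (by linarith)

theorem cont_Lo (η : E m) (s : ℝ) : Continuous (Lo η s : Z m → Z m) := by
  unfold Lo
  fun_prop

theorem pl_meas (η : E m) (s r : ℝ) (z₀ : Z m) : MeasurableSet (pl η s r z₀) := by
  unfold pl
  have h1 : Continuous (fun z : Z m => ‖Lo η s (z - z₀)‖) :=
    ((cont_Lo η s).comp (by fun_prop)).norm
  exact measurableSet_le h1.measurable measurable_const

theorem cp_ne {φ : E m → ℂ} (hφ : ∀ x, 1 ≤ ‖x‖ → φ x = 0) {η : E m} {s : ℝ} (hs : 0 < s)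
    {ζ : Z m} (h : cp φ η s ζ ≠ 0) : ‖ζ.1⁻¹ • ζ.2.1 - η‖ < s := by
  by_contra hc
  apply h
  unfold cp
  apply hφ
  rw [norm_smul, norm_inv, Real.norm_eq_abs, abs_of_pos hs, ← div_eq_inv_mul, le_div_iff₀ hs,
    one_mul]
  exact not_lt.1 hc

/-- the caps near a point form a finite set -/
theorem near_finite (hPUS : T_PUS) (m : ℕ) (s ρ : ℝ) (hs : 0 < s) (hρ : 0 ≤ ρ) (x : E m) :
    {k : Fin m → ℤ | ‖ctr s k - x‖ ≤ ρ}.Finite := by
  obtain ⟨-, -, C, hC, -, h5, -⟩ := hPUS m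
  by_contra hinf
  have hinf : {k : Fin m → ℤ | ‖ctr s k - x‖ ≤ ρ}.Infinite := hinf
  obtain ⟨J, hJ, hc⟩ := hinf.exists_subset_card_eq (⌈C * (1 + ρ / s) ^ m⌉₊ + 1)
  have h6 := h5 s ρ x J hs hρ (fun k hk => hJ hk)
  rw [hc] at h6
  have h7 := Nat.le_ceil (C * (1 + ρ / s) ^ m)
  push_cast at h6
  linarith

end Pool.Agent.H61.G
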