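import Pool.Agent.H61.G.L2Qa

/-!
Theorem G (MP_ee74d2_an), row L2Q: local energy on a cube of side `R^{1/2}`.
-/

set_option autoImplicit false

namespace Pool.Agent.H61.G.L2Q

open MeasureTheory Set Pool.Agent.H83.G Pool.Agent.H61.G
open scoped ENNReal NNReal RealInnerProductSpace

/-- sums of weights over the planks of one cap -/
theorem sum_wt {m : ℕ} (hWT3 : T_WT3) : ∃ C : ℝ, 0 ≤ C ∧ ∀ (k : Fin m → ℤ) (S : Finset (Pk m))
    (x : Z m), (∀ W ∈ S, W.1 = k) → ∑ W ∈ S, wt (m + 3) (x - zc W.2) ≤ C := by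
  classical
  obtain ⟨C, hC, -⟩ := hWT3 m (m + 3) le_rfl
  refine ⟨C, C.2, fun k S x hS => ?_⟩
  have h1 := hC 1 x one_pos le_rfl
  rw [inv_one, one_pow, ENNReal.ofReal_one, mul_one] at h1
  have h2 : ∑ W ∈ S, ENNReal.ofReal (wt (m + 3) (x - zc W.2)) =
      ∑ l ∈ S.image Prod.snd, ENNReal.ofReal (wt (m + 3) (x - zc l)) := by
    rw [Finset.sum_image]
    intro W hW W' hW' h
    exact Prod.ext ((hS W hW).trans (hS W' hW').symm) h
  have h3 : ∀ l : Zi m, wt (m + 3) (x - zc l) = wt (m + 3) ((1 : ℝ) • zc l - x) := by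
    intro l
    unfold wt
    rw [one_smul, norm_sub_rev]
  have h4 : ∑ W ∈ S, ENNReal.ofReal (wt (m + 3) (x - zc W.2)) ≤ C := by
    rw [h2]
    simp only [h3]
    exact (ENNReal.sum_le_tsum _).trans h1
  rw [← ENNReal.ofReal_sum_of_nonneg (fun W _ => (wt_pos _ _).le)] at h4
  have h5 := ENNReal.toReal_mono ENNReal.coe_ne_top h4
  rwa [ENNReal.toReal_ofReal (Finset.sum_nonneg fun W _ => (wt_pos _ _).le),
    ENNReal.coe_toReal] at h5

/-- Cauchy-Schwarz for the planks of one cap -/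
theorem cs {α : Type} (S : Finset α) (a w v : α → ℝ) (C K t : ℝ)
    (hw : ∀ i ∈ S, 0 ≤ w i ∧ w i ≤ 1) (hv : ∀ i ∈ S, 0 ≤ v i ∧ v i ≤ 1)
    (hs : ∑ i ∈ S, v i ≤ C) (ht0 : 0 ≤ t) (ht : t ≤ ∑ i ∈ S, K * a i * (w i * v i)) :
    t ^ 2 ≤ K ^ 2 * C * ∑ i ∈ S, a i ^ 2 * w i := by
  have h1 : ∑ i ∈ S, K * a i * (w i * v i) = K * ∑ i ∈ S, (a i * w i) * v i := by
    rw [Finset.mul_sum]
    exact Finset.sum_congr rfl fun i _ => by ring
  rw [h1] at ht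
  have h2 := Finset.sum_mul_sq_le_sq_mul_sq S (fun i => a i * w i) v
  have h3 : ∑ i ∈ S, (a i * w i) ^ 2 ≤ ∑ i ∈ S, a i ^ 2 * w i := by
    refine Finset.sum_le_sum fun i hi => ?_
    rw [mul_pow]
    refine mul_le_mul_of_nonneg_left ?_ (sq_nonneg _)
    have := hw i hi
    nlinarith [this.1, this.2]
  have h4 : ∑ i ∈ S, v i ^ 2 ≤ C := by
    refine (Finset.sum_le_sum fun i hi => ?_).trans hs
    have := hv i hi
    nlinarith [this.1, this.2]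
  have h5 : 0 ≤ ∑ i ∈ S, a i ^ 2 * w i :=
    Finset.sum_nonneg fun i hi => mul_nonneg (sq_nonneg _) (hw i hi).1
  have h6 : 0 ≤ ∑ i ∈ S, v i ^ 2 := Finset.sum_nonneg fun i _ => sq_nonneg _
  calc t ^ 2 ≤ (K * ∑ i ∈ S, (a i * w i) * v i) ^ 2 := pow_le_pow_left₀ ht0 ht 2
    _ = K ^ 2 * (∑ i ∈ S, (a i * w i) * v i) ^ 2 := by ring
    _ ≤ K ^ 2 * ((∑ i ∈ S, a i ^ 2 * w i) * C) := by
        refine mul_le_mul_of_nonneg_left (h2.trans ?_) (sq_nonneg _)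
        exact mul_le_mul h3 h4 h6 h5
    _ = _ := by ring

/-- the support of the class is bounded -/
theorem Rg_bd {m : ℕ} {R : ℝ} (hR : 1 ≤ R) {κ : ℝ} (hκ : κ ≤ 1 / 2) (hκ0 : 0 ≤ κ) {ζ : Z m}
    (h : ζ ∈ Rg m κ R⁻¹) :
    1 / 4 ≤ ζ.1 ∧ ζ.1 ≤ 8 ∧ ‖ζ‖ ≤ 20 := by
  obtain ⟨h1, h2, h3, h4⟩ := h
  have hR1 : R⁻¹ ≤ 1 := inv_le_one_of_one_le₀ hR
  have hR0 : 0 < R⁻¹ := inv_pos.2 (by linarith)
  have a1 : 1 / 2 ≤ ζ.1 := by linarith
  have a2 : ζ.1 ≤ 9 / 2 := by linarith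
  have a3 : ‖ζ.2.1‖ ≤ 3 / 2 * ζ.1 := h3.trans (by nlinarith)
  have a4 : ‖ζ.2.1‖ ^ 2 / ζ.1 ≤ 9 / 4 * ζ.1 := by
    rw [div_le_iff₀ (by linarith)]
    have := norm_nonneg ζ.2.1
    nlinarith
  have a5 : 0 ≤ ‖ζ.2.1‖ ^ 2 / ζ.1 := by positivity
  have a6 : |ζ.2.2 - ‖ζ.2.1‖ ^ 2 / ζ.1| ≤ 3 / 2 := by
    refine h4.trans ?_
    nlinarith
  rw [abs_le] at a6
  refine ⟨by linarith, by linarith, ?_⟩
  rw [norm_prod_le_iff, norm_prod_le_iff]
  refine ⟨?_, ?_, ?_⟩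
  · rw [Real.norm_eq_abs, abs_le]
    constructor <;> linarith
  · linarith
  · rw [Real.norm_eq_abs, abs_le]
    constructor <;> linarith [a6.1, a6.2]

/-- the numbers -/
theorem numbers {m N1 N2 : ℕ} {R δ M a A CP CT C3 CA cS cL cJ cW n n' : ℝ} (hR : 1 ≤ R)
    (hR0 : 0 < R) (hδ : 0 < δ) (hCP : 1 ≤ CP) (hC3 : 0 ≤ C3) (hcS : 0 ≤ cS)
    (hcL : 0 ≤ cL) (hcJ : 0 ≤ cJ) (hcW : 0 ≤ cW) (hn : 0 ≤ n) (hn' : 0 ≤ n')
    (hN2 : ((|M| + δ * ((m : ℝ) + 2) + ((m : ℝ) + 2) / 2) / δ + 2) ≤ N2) {KT CC : ℝ}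
    (hKT : KT = (CT * R ^ (δ * ((m : ℝ) + 2) / 2)) ^ 2 * C3)
    (hCC : CC = ((m : ℝ) + 2) ^ N1 * cS * cL * CT ^ 2 * C3 * (cJ + CA ^ 2 * cW)) :
    ((m : ℝ) + 2) ^ N1 * (cS * (cL * (n' * (KT * a ^ 2 * (cJ * (R ^ δ *
      R ^ (((m : ℝ) + 1) / 2)))) + n * (KT * (CA * A) ^ 2 * (((R ^ δ) ^ N2)⁻¹ *
      (cW * ((sR R)⁻¹) ^ (m + 2))))))) ≤
    (8 * CP + CC) * R ^ (lo m * δ) * a ^ 2 * n' * R ^ (((m : ℝ) + 1) / 2) +
      (8 * CP + CC) * A ^ 2 * n * R ^ (-M) := by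
  have hm : (0 : ℝ) ≤ m := Nat.cast_nonneg m
  have hs0 := sR_pos hR
  have e1 : KT * R ^ δ ≤ CT ^ 2 * C3 * R ^ (lo m * δ) := by
    have h1 : KT * R ^ δ = CT ^ 2 * C3 * R ^ (δ * ((m : ℝ) + 3)) := by
      have h2 : R ^ (δ * ((m : ℝ) + 3)) = (R ^ (δ * ((m : ℝ) + 2) / 2)) ^ 2 * R ^ δ := by
        rw [← Real.rpow_natCast (R ^ _) 2, ← Real.rpow_mul hR0.le, ← Real.rpow_add hR0]
        congr 1
        push_cast
        ring
      rw [h2, hKT]
      ring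
    rw [h1]
    refine mul_le_mul_of_nonneg_left (Real.rpow_le_rpow_of_exponent_le hR ?_) (by positivity)
    unfold lo
    nlinarith
  have e2 : KT * (((R ^ δ) ^ N2)⁻¹ * (sR R)⁻¹ ^ (m + 2)) ≤ CT ^ 2 * C3 * R ^ (-M) := by
    have h1 : KT * (((R ^ δ) ^ N2)⁻¹ * (sR R)⁻¹ ^ (m + 2)) =
        CT ^ 2 * C3 * R ^ (δ * ((m : ℝ) + 2) - δ * N2 + ((m : ℝ) + 2) / 2) := by
      have h2 : R ^ (δ * ((m : ℝ) + 2) - δ * N2 + ((m : ℝ) + 2) / 2) =
          (R ^ (δ * ((m : ℝ) + 2) / 2)) ^ 2 * (((R ^ δ) ^ N2)⁻¹ * (sR R)⁻¹ ^ (m + 2)) := by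
        have h3 : (sR R)⁻¹ ^ (m + 2) = R ^ (((m : ℝ) + 2) / 2) := by
          unfold sR
          rw [inv_inv, Real.sqrt_eq_rpow, ← Real.rpow_natCast, ← Real.rpow_mul hR0.le]
          congr 1
          push_cast
          ring
        rw [h3, ← Real.rpow_natCast (R ^ (δ * ((m : ℝ) + 2) / 2)) 2, ← Real.rpow_mul hR0.le,
          ← Real.rpow_natCast (R ^ δ) N2, ← Real.rpow_mul hR0.le, ← Real.rpow_neg hR0.le,
          ← Real.rpow_add hR0, ← Real.rpow_add hR0]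
        congr 1
        push_cast
        ring
      rw [h2, hKT]
      ring
    rw [h1]
    refine mul_le_mul_of_nonneg_left (Real.rpow_le_rpow_of_exponent_le hR ?_) (by positivity)
    have h2 : (|M| + δ * ((m : ℝ) + 2) + ((m : ℝ) + 2) / 2) + 2 * δ ≤ δ * N2 := by
      have h3 := mul_le_mul_of_nonneg_left hN2 hδ.le
      rw [mul_add, mul_div_cancel₀ _ hδ.ne'] at h3
      linarith
    have h4 := le_abs_self M
    linarith
  set P : ℝ := R ^ (((m : ℝ) + 1) / 2) with hPd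
  set b1 : ℝ := KT * a ^ 2 * (cJ * (R ^ δ * P)) with hb1
  set b2 : ℝ := KT * (CA * A) ^ 2 * (((R ^ δ) ^ N2)⁻¹ * (cW * ((sR R)⁻¹) ^ (m + 2))) with hb2
  have hP0 : 0 ≤ P := by positivity
  have f1 : b1 ≤ CT ^ 2 * C3 * R ^ (lo m * δ) * (a ^ 2 * cJ * P) := by
    calc b1 = (KT * R ^ δ) * (a ^ 2 * cJ * P) := by
          rw [hb1]
          ring
      _ ≤ _ := mul_le_mul_of_nonneg_right e1 (by positivity)
  have f2 : b2 ≤ CT ^ 2 * C3 * R ^ (-M) * ((CA * A) ^ 2 * cW) := by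
    calc b2 = (KT * (((R ^ δ) ^ N2)⁻¹ * (sR R)⁻¹ ^ (m + 2))) * ((CA * A) ^ 2 * cW) := by
          rw [hb2]
          ring
      _ ≤ _ := mul_le_mul_of_nonneg_right e2 (by positivity)
  set B : ℝ := ((m : ℝ) + 2) ^ N1 * cS * cL * CT ^ 2 * C3 with hB
  have hB0 : 0 ≤ B := by positivity
  have g1 : B * cJ ≤ 8 * CP + CC := by
    have : 0 ≤ B * (CA ^ 2 * cW) := by positivity
    have h2 : CC = B * cJ + B * (CA ^ 2 * cW) := by
      rw [hCC]
      ring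
    linarith
  have g2 : B * (CA ^ 2 * cW) ≤ 8 * CP + CC := by
    have : 0 ≤ B * cJ := by positivity
    have h2 : CC = B * cJ + B * (CA ^ 2 * cW) := by
      rw [hCC]
      ring
    linarith
  calc ((m : ℝ) + 2) ^ N1 * (cS * (cL * (n' * b1 + n * b2))) ≤
      ((m : ℝ) + 2) ^ N1 * (cS * (cL * (n' *
        (CT ^ 2 * C3 * R ^ (lo m * δ) * (a ^ 2 * cJ * P)) + n *
        (CT ^ 2 * C3 * R ^ (-M) * ((CA * A) ^ 2 * cW))))) := by
        gcongr
    _ = (B * cJ) * (R ^ (lo m * δ) * a ^ 2 * n' * P) +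
        (B * (CA ^ 2 * cW)) * (A ^ 2 * n * R ^ (-M)) := by
        rw [hB]
        ring
    _ ≤ (8 * CP + CC) * (R ^ (lo m * δ) * a ^ 2 * n' * P) +
        (8 * CP + CC) * (A ^ 2 * n * R ^ (-M)) :=
        add_le_add (mul_le_mul_of_nonneg_right g1 (by positivity))
          (mul_le_mul_of_nonneg_right g2 (by positivity))
    _ = _ := by ring

theorem pf_L2Q (hLWX : T_LWX) (hPKT : T_PKT) (hLO : T_LO) (hSPW : T_SPW) (hPTW : T_PTW)
    (hAMU : T_AMU) (hWT1 : T_WT1) (hWT2 : T_WT2) (hWT3 : T_WT3) (hPUS : T_PUS) (hLOA : T_LOA) :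
    T_L2Q := by
  classical
  intro m L N β Ψ ψ δ M hβ hψ hδ hδ1 hN
  obtain ⟨Ξ, χ, hχ⟩ := hLWX m
  obtain ⟨CP, hCP, hP⟩ := hPKT m β Ψ Ξ ψ χ hβ hψ hχ
  -- exponents
  obtain ⟨N2, hN2⟩ := exists_nat_ge ((|M| + δ * ((m : ℝ) + 2) + ((m : ℝ) + 2) / 2) / δ + 2)
  set N1 : ℕ := N2 + (m + 3) with hN1
  obtain ⟨CS, hS⟩ := hSPW m N1 20 2 1 (by norm_num) zero_le_one
  obtain ⟨hP1, -, CU, hCU, -, hU2, hU3⟩ := hPUS m
  set D : ℝ := 2 + CU with hD
  obtain ⟨CL, hL⟩ := hLO m N1 ⌈CU * (1 + 2 * D) ^ m⌉₊ D (by omega) (by linarith)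
  obtain ⟨CT, hCT, hT⟩ := hPTW m N N1 β Ψ ψ δ hβ hψ hδ.le
  obtain ⟨CA, hCA, hA⟩ := hAMU m L N β δ hβ hδ.le hN
  obtain ⟨C3, hC3, h3⟩ := sum_wt (m := m) hWT3
  obtain ⟨CJ, hJ⟩ := JW_le m N1 N2 (by omega) (by
    have h1 : (2 : ℝ) ≤ N2 := by
      refine le_trans ?_ hN2
      have : 0 ≤ (|M| + δ * ((m : ℝ) + 2) + ((m : ℝ) + 2) / 2) / δ := by positivity
      linarith
    exact_mod_cast h1)
  obtain ⟨CW, hW2, -, -⟩ := hWT2 m (m + 3) le_rfl
  set CC : ℝ := ((m : ℝ) + 2) ^ N1 * CS * CL * CT ^ 2 * C3 * (CJ + CA ^ 2 * CW) with hCC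
  refine ⟨8 * CP + CC, ?_, ?_⟩
  · have : 0 ≤ CC := by positivity
    linarith
  intro κ R A a G S S' q X hκ0 hκ hR hCR hA0 ha0 hG hX hXq hSa hS'S hInc
  have hR0 : 0 < R := by linarith
  have hs0 := sR_pos hR
  have hsq : 0 < Real.sqrt R := Real.sqrt_pos.2 hR0
  have hsq1 : 1 ≤ Real.sqrt R := Real.one_le_sqrt.2 hR
  have hsR1 : sR R ≤ 1 := inv_le_one_of_one_le₀ hsq1
  have hrs : Real.sqrt R * sR R = 1 := mul_inv_cancel₀ hsq.ne'
  have hd1 : 1 ≤ R ^ δ := Real.one_le_rpow hR hδ.le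
  have hm : (0 : ℝ) ≤ m := Nat.cast_nonneg m
  have hCC0 : 0 ≤ CC := by positivity
  have hκ' : κ + CP * R ^ (-δ) ≤ 1 / 2 := by
    have h1 : 8 * CP ≤ R ^ δ := by linarith
    rw [Real.rpow_neg hR0.le, ← div_eq_mul_inv]
    have h2 : CP / R ^ δ ≤ 1 / 8 := by
      rw [div_le_iff₀ (by positivity)]
      linarith
    linarith
  obtain ⟨G', hG1, hG2, hG3, -⟩ :=
    (hP κ R R δ G S 0 hκ0 hκ hδ hδ1 hR (by linarith) hG.1 hG.2.1).1
  have hGb : ∀ k ζ, G' k ζ ≠ 0 → 1 / 4 ≤ ζ.1 ∧ ζ.1 ≤ 8 ∧ ‖ζ‖ ≤ 20 := fun k ζ hζ =>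
    Rg_bd hR hκ' (by positivity) (hG2 k ζ hζ).1
  set I : Finset (Fin m → ℤ) := S.image Prod.fst with hI
  -- the sum
  have hsum : ∀ z, ∑ W ∈ S, Fp β ψ R δ G W z = TF (fun ζ => ∑ k ∈ I, G' k ζ) z := by
    intro z
    rw [TF_sum (fun k _ => hG1 k) z]
    simp only [hG3]
    rw [Finset.sum_fiberwise_of_maps_to (g := Prod.fst)
      (fun W hW => Finset.mem_image_of_mem _ hW)]
  set ω : Z m → ℝ≥0∞ := fun z => ENNReal.ofReal (wt N1 (sR R • z - zc q)) with hω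
  have hwtc : Continuous (fun z : Z m => wt N1 (sR R • z - zc q)) :=
    (hWT1 m N1).2.1.comp (by fun_prop)
  have hωm : Measurable ω := (ENNReal.continuous_ofReal.comp hwtc).measurable
  have hslow : ∀ z z', ω z ≤ ENNReal.ofReal (1 * (1 + ‖z - z'‖) ^ N1) * ω z' := by
    intro z z'
    rw [hω, ← ENNReal.ofReal_mul (by positivity)]
    refine ENNReal.ofReal_le_ofReal ?_
    unfold wt
    rw [one_mul, ← div_eq_mul_inv, le_div_iff₀ (by positivity), inv_mul_le_iff₀ (by positivity),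
      ← mul_pow]
    refine pow_le_pow_left₀ (by positivity) ?_ _
    have h1 : sR R • z' - zc q = (sR R • z - zc q) - sR R • (z - z') := by
      rw [smul_sub]
      abel
    have h2 : ‖sR R • (z - z')‖ ≤ ‖z - z'‖ := by
      rw [norm_smul, Real.norm_of_nonneg hs0.le]
      exact mul_le_of_le_one_left (norm_nonneg _) hsR1
    have h3 : ‖sR R • z' - zc q‖ ≤ ‖sR R • z - zc q‖ + ‖z - z'‖ := by
      rw [h1]
      exact (norm_sub_le _ _).trans (by linarith)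
    have h4 := norm_nonneg (z - z')
    have h5 := norm_nonneg (sR R • z - zc q)
    nlinarith
  have hSP := hS (fun ζ => ∑ k ∈ I, G' k ζ) X ω (tc_sum fun k _ => hG1 k)
    (fun ζ hζ => by
      obtain ⟨k, hk, hk2⟩ := Finset.exists_ne_zero_of_sum_ne_zero hζ
      exact (hGb k ζ hk2).2.2) hX hωm hslow
  simp only [ENNReal.rpow_two] at hSP
  -- the points of the cube
  have hXw : ∑ z ∈ X, ‖∑ W ∈ S, Fp β ψ R δ G W z‖ₑ ^ 2 ≤
      ENNReal.ofReal (((m : ℝ) + 2) ^ N1) *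
        ∑ z ∈ X, ‖TF (fun ζ => ∑ k ∈ I, G' k ζ) z‖ₑ ^ 2 * ω z := by
    rw [Finset.mul_sum]
    refine Finset.sum_le_sum fun z hz => ?_
    rw [hsum z]
    have h1 : ‖sR R • z - zc q‖ ≤ (m : ℝ) + 1 := by
      have := cube_near (Real.sqrt R) z
      rwa [hXq z hz] at this
    have h2 := wt_ge N1 _ h1
    have h3 : (1 : ℝ≥0∞) ≤ ENNReal.ofReal (((m : ℝ) + 2) ^ N1) * ω z := by
      rw [hω, ← ENNReal.ofReal_mul (by positivity), ← ENNReal.ofReal_one]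
      refine ENNReal.ofReal_le_ofReal ?_
      have h4 : (1 + ((m : ℝ) + 1)) = (m : ℝ) + 2 := by ring
      rw [h4] at h2
      calc (1 : ℝ) = ((m : ℝ) + 2) ^ N1 * (((m : ℝ) + 2) ^ N1)⁻¹ :=
            (mul_inv_cancel₀ (by positivity)).symm
        _ ≤ _ := mul_le_mul_of_nonneg_left h2 (by positivity)
    calc ‖TF (fun ζ => ∑ k ∈ I, G' k ζ) z‖ₑ ^ 2 =
        ‖TF (fun ζ => ∑ k ∈ I, G' k ζ) z‖ₑ ^ 2 * 1 := (mul_one _).symm
      _ ≤ ‖TF (fun ζ => ∑ k ∈ I, G' k ζ) z‖ₑ ^ 2 *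
          (ENNReal.ofReal (((m : ℝ) + 2) ^ N1) * ω z) := mul_le_mul_right h3 _
      _ = _ := by ring
  -- local orthogonality
  have hLO1 := hL (Fin m → ℤ) I G' (fun k => ctr (sR R) k) (sR R) 1 (Real.sqrt R) 0 (zc q) hs0
    one_pos hsq1 (by rw [mul_assoc, hrs]; linarith)
    (fun k hk => by
      rw [mul_assoc, hrs, sub_zero, mul_one]
      obtain ⟨W, hW, rfl⟩ := Finset.mem_image.1 hk
      have := hU3 (sR R) W.1 hs0 hsR1 (hSa W hW).1
      linarith) (fun k _ => hG1 k)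
    (fun k _ ζ hζ => ⟨(hGb k ζ hζ).1, (hGb k ζ hζ).2.1, (hG2 k ζ hζ).2.trans
      (mul_le_mul_of_nonneg_right (by linarith) hs0.le)⟩)
    (fun y J' _ hy => by
      have h1 := hU2 (sR R) (2 * D * sR R) y J' hs0 (by positivity) (fun k hk => by
        rw [norm_sub_rev]
        exact hy k hk)
      rw [mul_div_assoc, div_self hs0.ne', mul_one] at h1
      have h2 := h1.trans (Nat.le_ceil _)
      exact_mod_cast h2)
  have hLo : ∀ z : Z m, (Real.sqrt R)⁻¹ • Lo 0 1 z - zc q = sR R • z - zc q := by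
    intro z
    rw [((hLOA m).2.2.2.2.1 z).1]
    rfl
  simp only [hLo] at hLO1
  -- the pieces
  set KT : ℝ := (CT * R ^ (δ * ((m : ℝ) + 2) / 2)) ^ 2 * C3 with hKT
  have hKT0 : 0 ≤ KT := by positivity
  have hal0 : ∀ W, 0 ≤ al N β R δ G W := fun W => Real.sqrt_nonneg _
  have hGsup : ∀ ζ, G ζ ≠ 0 → ζ ∈ Rg m (1 / 2) R⁻¹ := by
    intro ζ hζ
    obtain ⟨h1, h2, h3, h4⟩ := hG.2.1 ζ hζ
    have h5 : 0 < R⁻¹ := inv_pos.2 hR0
    refine ⟨by linarith, by linarith, h3.trans ?_, h4.trans ?_⟩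
    · have : 0 ≤ ζ.1 := by linarith
      nlinarith
    · nlinarith
  have hcs : ∀ k z, ‖TF (G' k) z‖ ^ 2 ≤ KT * ∑ W ∈ S.filter (fun W => W.1 = k),
      al N β R δ G W ^ 2 * wt N2 (fc R δ W.1 z - zc W.2) := by
    intro k z
    refine cs (S.filter (fun W => W.1 = k)) (fun W => al N β R δ G W)
      (fun W => wt N2 (fc R δ W.1 z - zc W.2)) (fun W => wt (m + 3) (fc R δ W.1 z - zc W.2)) C3
      (CT * R ^ (δ * ((m : ℝ) + 2) / 2)) _ (fun W _ => ⟨(wt_pos _ _).le, wt_le_one _ _⟩)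
      (fun W _ => ⟨(wt_pos _ _).le, wt_le_one _ _⟩) ?_ (norm_nonneg _) ?_
    · refine le_trans (le_of_eq ?_) (h3 k (S.filter (fun W => W.1 = k)) (fc R δ k z)
        (fun W hW => (Finset.mem_filter.1 hW).2))
      refine Finset.sum_congr rfl fun W hW => ?_
      rw [(Finset.mem_filter.1 hW).2]
    · rw [hG3 k z]
      refine (norm_sum_le _ _).trans (Finset.sum_le_sum fun W _ => ?_)
      refine (hT R G W z hR hG.1 hGsup).trans (le_of_eq ?_)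
      have h6 : ∀ x : Z m, wt N1 x = wt N2 x * wt (m + 3) x := by
        intro x
        unfold wt
        rw [hN1, pow_add, mul_inv]
      rw [h6]
  set JW : Pk m → ℝ≥0∞ := fun W => ∫⁻ z, ENNReal.ofReal (wt N2 (fc R δ W.1 z - zc W.2)) * ω z
    with hJW
  have hwm : ∀ W : Pk m, Measurable
      (fun z : Z m => ENNReal.ofReal (wt N2 (fc R δ W.1 z - zc W.2))) := by
    intro W
    refine (ENNReal.continuous_ofReal.comp ((hWT1 m N2).2.1.comp ?_)).measurable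
    unfold fc
    have := cont_Lo (ctr (sR R) W.1) (sR R)
    fun_prop
  have hk : ∀ k, ∫⁻ z, ‖TF (G' k) z‖ₑ ^ 2 * ω z ≤
      ∑ W ∈ S.filter (fun W => W.1 = k), ENNReal.ofReal (KT * al N β R δ G W ^ 2) * JW W := by
    intro k
    calc ∫⁻ z, ‖TF (G' k) z‖ₑ ^ 2 * ω z ≤
        ∫⁻ z, ∑ W ∈ S.filter (fun W => W.1 = k), ENNReal.ofReal (KT * al N β R δ G W ^ 2) *
          (ENNReal.ofReal (wt N2 (fc R δ W.1 z - zc W.2)) * ω z) := by
          refine lintegral_mono fun z => ?_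
          simp only [← mul_assoc]
          rw [← Finset.sum_mul]
          refine mul_le_mul_left ?_ _
          rw [← ofReal_norm, ← ENNReal.ofReal_pow (norm_nonneg _)]
          simp only [← ENNReal.ofReal_mul (mul_nonneg hKT0 (sq_nonneg _))]
          rw [← ENNReal.ofReal_sum_of_nonneg (fun W _ => mul_nonneg
            (mul_nonneg hKT0 (sq_nonneg _)) (wt_pos _ _).le)]
          refine ENNReal.ofReal_le_ofReal ((hcs k z).trans (le_of_eq ?_))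
          rw [Finset.mul_sum]
          exact Finset.sum_congr rfl fun W _ => by ring
      _ = _ := by
          have h6 : ∀ W : Pk m, Measurable (fun z : Z m => ENNReal.ofReal
              (KT * al N β R δ G W ^ 2) *
              (ENNReal.ofReal (wt N2 (fc R δ W.1 z - zc W.2)) * ω z)) :=
            fun W => ((hwm W).mul hωm).const_mul _
          rw [lintegral_finsetSum _ (fun W _ => h6 W)]
          refine Finset.sum_congr rfl fun W _ => ?_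
          rw [lintegral_const_mul' _ _ ENNReal.ofReal_ne_top]
  have hall : ∑ k ∈ I, ∫⁻ z, ‖TF (G' k) z‖ₑ ^ 2 * ω z ≤
      ∑ W ∈ S, ENNReal.ofReal (KT * al N β R δ G W ^ 2) * JW W := by
    refine (Finset.sum_le_sum fun k _ => hk k).trans (le_of_eq ?_)
    exact Finset.sum_fiberwise_of_maps_to (g := Prod.fst)
      (fun W hW => Finset.mem_image_of_mem _ hW) _
  set b1 : ℝ := KT * a ^ 2 * (CJ * (R ^ δ * R ^ (((m : ℝ) + 1) / 2))) with hb1
  set b2 : ℝ := KT * (CA * A) ^ 2 * (((R ^ δ) ^ N2)⁻¹ * (CW * ((sR R)⁻¹) ^ (m + 2))) with hb2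
  have hb10 : 0 ≤ b1 := by positivity
  have hb20 : 0 ≤ b2 := by positivity
  have hterm : ∀ W ∈ S, ENNReal.ofReal (KT * al N β R δ G W ^ 2) * JW W ≤
      ENNReal.ofReal ((if W ∈ S' then b1 else 0) + b2) := by
    intro W hW
    by_cases hWS : W ∈ S'
    · rw [if_pos hWS]
      have h1 : JW W ≤ ENNReal.ofReal (CJ * (R ^ δ * R ^ (((m : ℝ) + 1) / 2))) := by
        rw [ENNReal.ofReal_mul CJ.coe_nonneg, ENNReal.ofReal_coe_nnreal]
        exact hJ R δ W.1 (zc W.2) (zc q) hR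
      have h2 : KT * al N β R δ G W ^ 2 ≤ KT * a ^ 2 :=
        mul_le_mul_of_nonneg_left (pow_le_pow_left₀ (hal0 W) (hSa W hW).2 2) hKT0
      calc ENNReal.ofReal (KT * al N β R δ G W ^ 2) * JW W ≤
          ENNReal.ofReal (KT * a ^ 2) *
            ENNReal.ofReal (CJ * (R ^ δ * R ^ (((m : ℝ) + 1) / 2))) :=
            mul_le_mul' (ENNReal.ofReal_le_ofReal h2) h1
        _ = ENNReal.ofReal b1 := (ENNReal.ofReal_mul (by positivity)).symm
        _ ≤ _ := ENNReal.ofReal_le_ofReal (le_add_of_nonneg_right hb20)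
    · rw [if_neg hWS, zero_add]
      have hI' : ¬ Inc R δ (tb R W) q := fun h => hWS (hInc W hW h)
      have h1 : JW W ≤ ENNReal.ofReal (((R ^ δ) ^ N2)⁻¹ * (CW * ((sR R)⁻¹) ^ (m + 2))) := by
        calc JW W ≤ ∫⁻ z, ENNReal.ofReal (((R ^ δ) ^ N2)⁻¹) *
              ENNReal.ofReal (wt (m + 3) (sR R • z - zc q)) := by
              refine lintegral_mono fun z => ?_
              rw [hω, ← ENNReal.ofReal_mul (wt_pos _ _).le,
                ← ENNReal.ofReal_mul (by positivity)]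
              exact ENNReal.ofReal_le_ofReal (tail hR hδ.le N2 W q hI' z)
          _ = ENNReal.ofReal (((R ^ δ) ^ N2)⁻¹) *
              ∫⁻ z, ENNReal.ofReal (wt (m + 3) (sR R • z - zc q)) :=
              lintegral_const_mul' _ _ ENNReal.ofReal_ne_top
          _ ≤ ENNReal.ofReal (((R ^ δ) ^ N2)⁻¹) *
              (CW * ENNReal.ofReal (((sR R)⁻¹) ^ (m + 2))) :=
              mul_le_mul_right (hW2 (sR R) (zc q) hs0) _
          _ = _ := by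
              rw [ENNReal.ofReal_mul (by positivity), ENNReal.ofReal_mul CW.coe_nonneg,
                ENNReal.ofReal_coe_nnreal]
      have h2 : KT * al N β R δ G W ^ 2 ≤ KT * (CA * A) ^ 2 :=
        mul_le_mul_of_nonneg_left (pow_le_pow_left₀ (hal0 W)
          (hA κ R A G W hκ0 (by linarith) hR hA0 hG).1 2) hKT0
      calc ENNReal.ofReal (KT * al N β R δ G W ^ 2) * JW W ≤
          ENNReal.ofReal (KT * (CA * A) ^ 2) *
            ENNReal.ofReal (((R ^ δ) ^ N2)⁻¹ * (CW * ((sR R)⁻¹) ^ (m + 2))) :=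
            mul_le_mul' (ENNReal.ofReal_le_ofReal h2) h1
        _ = ENNReal.ofReal b2 := (ENNReal.ofReal_mul (by positivity)).symm
  have hcard : ∑ W ∈ S, ((if W ∈ S' then b1 else 0) + b2) ≤ S'.card * b1 + S.card * b2 := by
    rw [Finset.sum_add_distrib, Finset.sum_ite_mem, Finset.sum_const, Finset.sum_const,
      nsmul_eq_mul, nsmul_eq_mul, Finset.inter_eq_right.2 hS'S]
  have htot : ∑ W ∈ S, ENNReal.ofReal (KT * al N β R δ G W ^ 2) * JW W ≤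
      ENNReal.ofReal (S'.card * b1 + S.card * b2) := by
    refine (Finset.sum_le_sum hterm).trans ?_
    rw [← ENNReal.ofReal_sum_of_nonneg (fun W _ => by split_ifs <;> positivity)]
    exact ENNReal.ofReal_le_ofReal hcard
  -- all together
  have hfin : ENNReal.ofReal (∑ z ∈ X, ‖∑ W ∈ S, Fp β ψ R δ G W z‖ ^ 2) ≤
      ENNReal.ofReal (((m : ℝ) + 2) ^ N1 * (CS * (CL * (S'.card * b1 + S.card * b2)))) := by
    rw [ENNReal.ofReal_sum_of_nonneg (fun z _ => sq_nonneg _)]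
    simp only [ENNReal.ofReal_pow (norm_nonneg _), ofReal_norm]
    rw [ENNReal.ofReal_mul (by positivity), ENNReal.ofReal_mul CS.coe_nonneg,
      ENNReal.ofReal_mul CL.coe_nonneg, ENNReal.ofReal_coe_nnreal, ENNReal.ofReal_coe_nnreal]
    refine hXw.trans (mul_le_mul_right ?_ _)
    refine hSP.trans (mul_le_mul_right ?_ _)
    have h6 : ∀ z, TF (fun ζ => ∑ k ∈ I, G' k ζ) z = ∑ k ∈ I, TF (G' k) z := fun z =>
      TF_sum (fun k _ => hG1 k) z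
    simp only [h6]
    refine hLO1.trans (mul_le_mul_right ?_ _)
    exact hall.trans htot
  have hfin2 := (ENNReal.ofReal_le_ofReal_iff (by positivity)).1 hfin
  refine hfin2.trans ?_
  exact numbers hR hR0 hδ hCP hC3 CS.coe_nonneg CL.coe_nonneg CJ.coe_nonneg CW.coe_nonneg
    (Nat.cast_nonneg _) (Nat.cast_nonneg _) hN2 hKT hCC

end Pool.Agent.H61.G.L2Q
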