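import Pool.Agent.H61.G.Basic

/-!
Theorem G (MP_ee74d2_an), row L2Q: lemmas (integrals of weights, planks and cubes).
-/

set_option autoImplicit false

namespace Pool.Agent.H61.G.L2Q

open MeasureTheory Set Pool.Agent.H83.G Pool.Agent.H61.G
open scoped ENNReal NNReal RealInnerProductSpace

/-- integrals of polynomial weights in any finite dimensional space -/
theorem wint {V : Type} [NormedAddCommGroup V] [NormedSpace ℝ V] [FiniteDimensional ℝ V]
    [MeasurableSpace V] [BorelSpace V] (μ : Measure V) [μ.IsAddHaarMeasure] (N : ℕ)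
    (hN : Module.finrank ℝ V < N) : ∃ C : ℝ≥0, ∀ (c : ℝ) (x : V), 0 < c →
    ∫⁻ z, ENNReal.ofReal (((1 + ‖c • z - x‖) ^ N)⁻¹) ∂μ ≤
      C * ENNReal.ofReal ((c⁻¹) ^ (Module.finrank ℝ V)) := by
  have h1 := finite_integral_one_add_norm (μ := μ) (r := (N : ℝ)) (by exact_mod_cast hN)
  have h0 : ∀ y : V, (1 + ‖y‖) ^ (-(N : ℝ)) = ((1 + ‖y‖) ^ N)⁻¹ := by
    intro y
    rw [Real.rpow_neg (by positivity), Real.rpow_natCast]
  simp only [h0] at h1
  refine ⟨(∫⁻ x, ENNReal.ofReal (((1 + ‖x‖) ^ N)⁻¹) ∂μ).toNNReal, fun c x hc => ?_⟩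
  rw [ENNReal.coe_toNNReal h1.ne]
  have hcont : Continuous (fun z : V => ENNReal.ofReal (((1 + ‖z - x‖) ^ N)⁻¹)) := by
    refine ENNReal.continuous_ofReal.comp (Continuous.inv₀ (by fun_prop) fun z => ?_)
    positivity
  have h2 : ∫⁻ z, ENNReal.ofReal (((1 + ‖c • z - x‖) ^ N)⁻¹) ∂μ =
      ∫⁻ z, ENNReal.ofReal (((1 + ‖z - x‖) ^ N)⁻¹) ∂(μ.map (fun z => c • z)) := by
    rw [lintegral_map hcont.measurable (measurable_const_smul c)]
  rw [h2, Measure.map_addHaar_smul μ hc.ne', lintegral_smul_measure,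
    lintegral_sub_right_eq_self (fun z : V => ENNReal.ofReal (((1 + ‖z‖) ^ N)⁻¹)) x,
    abs_of_pos (by positivity), inv_pow, smul_eq_mul, mul_comm]

/-- the cube of index `q` -/
theorem cube_near {m : ℕ} (ρ : ℝ) (z : Z m) :
    ‖ρ⁻¹ • z - zc (cb ρ z)‖ ≤ (m : ℝ) + 1 := by
  have hfl : ∀ x : ℝ, |ρ⁻¹ * x - (⌊x / ρ⌋ : ℝ)| ≤ 1 := by
    intro x
    rw [← div_eq_inv_mul]
    have h1 := Int.floor_le (x / ρ)
    have h2 := Int.lt_floor_add_one (x / ρ)
    rw [abs_le]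
    constructor <;> linarith
  have hm : (0 : ℝ) ≤ m := Nat.cast_nonneg m
  rw [norm_prod_le_iff, norm_prod_le_iff]
  refine ⟨?_, ?_, ?_⟩
  · refine (hfl z.1).trans ?_
    linarith
  · rw [EuclideanSpace.norm_eq]
    refine Real.sqrt_le_iff.2 ⟨by positivity, ?_⟩
    have h1 : ∀ i ∈ (Finset.univ : Finset (Fin m)),
        ‖(ρ⁻¹ • z - zc (cb ρ z)).2.1 i‖ ^ 2 ≤ 1 := by
      intro i _
      have h2 : (ρ⁻¹ • z - zc (cb ρ z)).2.1 i = ρ⁻¹ * z.2.1 i - (⌊z.2.1 i / ρ⌋ : ℝ) := rfl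
      rw [h2, Real.norm_eq_abs]
      have h3 := hfl (z.2.1 i)
      exact pow_le_one₀ (abs_nonneg _) h3
    refine (Finset.sum_le_sum h1).trans ?_
    rw [Finset.sum_const, Finset.card_univ, Fintype.card_fin, nsmul_eq_mul, mul_one]
    nlinarith
  · refine (hfl z.2.2).trans ?_
    linarith

/-- integral of the product of the weights of a plank and of a cube -/
theorem JW_le (m N1 N2 : ℕ) (h1 : m + 2 ≤ N1) (h2 : 2 ≤ N2) : ∃ C : ℝ≥0,
    ∀ (R δ : ℝ) (k : Fin m → ℤ) (x y : Z m), 1 ≤ R →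
    ∫⁻ z, ENNReal.ofReal (wt N2 (fc R δ k z - x)) * ENNReal.ofReal (wt N1 (sR R • z - y)) ≤
      C * ENNReal.ofReal (R ^ δ * R ^ (((m : ℝ) + 1) / 2)) := by
  obtain ⟨C1, hC1⟩ := wint (V := ℝ) volume N2 (by rw [Module.finrank_self]; omega)
  have hfr : Module.finrank ℝ (E m × ℝ) = m + 1 := by
    rw [Module.finrank_prod, finrank_euclideanSpace, Module.finrank_self, Fintype.card_fin]
  have : (volume : Measure (E m × ℝ)).IsAddHaarMeasure := by
    rw [Measure.volume_eq_prod]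
    exact Measure.prod.instIsAddHaarMeasure _ _
  obtain ⟨C2, hC2⟩ := wint (V := E m × ℝ) volume N1 (by rw [hfr]; omega)
  refine ⟨C1 * C2, fun R δ k x y hR => ?_⟩
  have hR0 : 0 < R := by linarith
  have hs0 := sR_pos hR
  set η : E m := ctr (sR R) k with hη
  set f : ℝ → E m × ℝ → ℝ≥0∞ := fun v u => ENNReal.ofReal
    (((1 + ‖R ^ (-δ) • v - (x.1 - R ^ (-δ) * (⟪u.1, η⟫ + u.2 * ‖η‖ ^ 2))‖) ^ N2)⁻¹) with hf
  set g : E m × ℝ → ℝ≥0∞ := fun u => ENNReal.ofReal (((1 + ‖sR R • u - y.2‖) ^ N1)⁻¹) with hg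
  have hpt : ∀ z : Z m, ENNReal.ofReal (wt N2 (fc R δ k z - x)) *
      ENNReal.ofReal (wt N1 (sR R • z - y)) ≤ f z.1 z.2 * g z.2 := by
    intro z
    refine mul_le_mul' (ENNReal.ofReal_le_ofReal ?_) (ENNReal.ofReal_le_ofReal ?_)
    · unfold wt
      refine inv_anti₀ (by positivity) (pow_le_pow_left₀ (by positivity) ?_ N2)
      have h3 : R ^ (-δ) • z.1 - (x.1 - R ^ (-δ) * (⟪z.2.1, η⟫ + z.2.2 * ‖η‖ ^ 2)) =
          (fc R δ k z - x).1 := by
        show _ = R ^ (-δ) * (z.1 + ⟪z.2.1, η⟫ + z.2.2 * ‖η‖ ^ 2) - x.1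
        rw [smul_eq_mul]
        ring
      rw [h3]
      have := norm_fst_le (fc R δ k z - x)
      linarith
    · unfold wt
      refine inv_anti₀ (by positivity) (pow_le_pow_left₀ (by positivity) ?_ N1)
      have := norm_snd_le (sR R • z - y)
      have h3 : (sR R • z - y).2 = sR R • z.2 - y.2 := rfl
      rw [h3] at this
      linarith
  have hfm : Measurable (fun z : Z m => f z.1 z.2 * g z.2) := by
    have c1 : Continuous (fun z : Z m => f z.1 z.2) := by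
      refine ENNReal.continuous_ofReal.comp (Continuous.inv₀ (by fun_prop) fun z => ?_)
      positivity
    have c2 : Continuous (fun z : Z m => g z.2) := by
      refine ENNReal.continuous_ofReal.comp (Continuous.inv₀ (by fun_prop) fun z => ?_)
      positivity
    exact c1.measurable.mul c2.measurable
  calc ∫⁻ z, ENNReal.ofReal (wt N2 (fc R δ k z - x)) * ENNReal.ofReal (wt N1 (sR R • z - y)) ≤
      ∫⁻ z : Z m, f z.1 z.2 * g z.2 := lintegral_mono hpt
    _ = ∫⁻ u : E m × ℝ, ∫⁻ v : ℝ, f v u * g u := by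
        rw [Measure.volume_eq_prod ℝ (E m × ℝ), lintegral_prod_symm' _ hfm]
    _ ≤ ∫⁻ u : E m × ℝ, (C1 * ENNReal.ofReal (R ^ δ)) * g u := by
        refine lintegral_mono fun u => ?_
        have h3 := hC1 (R ^ (-δ)) (x.1 - R ^ (-δ) * (⟪u.1, η⟫ + u.2 * ‖η‖ ^ 2))
          (Real.rpow_pos_of_pos hR0 _)
        rw [Module.finrank_self, pow_one, ← Real.rpow_neg hR0.le, neg_neg] at h3
        have h4 : ∫⁻ v : ℝ, f v u * g u = (∫⁻ v : ℝ, f v u) * g u := by
          rw [lintegral_mul_const' _ _ ENNReal.ofReal_ne_top]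
        rw [h4]
        exact mul_le_mul_left h3 _
    _ = (C1 * ENNReal.ofReal (R ^ δ)) * ∫⁻ u : E m × ℝ, g u := by
        rw [lintegral_const_mul' _ _ (ENNReal.mul_ne_top ENNReal.coe_ne_top
          ENNReal.ofReal_ne_top)]
    _ ≤ (C1 * ENNReal.ofReal (R ^ δ)) * (C2 * ENNReal.ofReal ((sR R)⁻¹ ^ (m + 1))) := by
        have h3 := hC2 (sR R) y.2 hs0
        rw [hfr] at h3
        exact mul_le_mul_right h3 _
    _ = _ := by
        have h3 : (sR R)⁻¹ ^ (m + 1) = R ^ (((m : ℝ) + 1) / 2) := by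
          unfold sR
          rw [inv_inv, Real.sqrt_eq_rpow, ← Real.rpow_natCast, ← Real.rpow_mul hR0.le]
          congr 1
          push_cast
          ring
        rw [h3, ENNReal.ofReal_mul (by positivity)]
        push_cast
        ring

/-- planks whose tube does not meet the cube -/
theorem tail {m : ℕ} {R δ : ℝ} (hR : 1 ≤ R) (hδ : 0 ≤ δ) (N2 : ℕ) (W : Pk m) (q : Zi m)
    (hI : ¬ Inc R δ (tb R W) q) (z : Z m) :
    wt N2 (fc R δ W.1 z - zc W.2) * wt (N2 + (m + 3)) (sR R • z - zc q) ≤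
      ((R ^ δ) ^ N2)⁻¹ * wt (m + 3) (sR R • z - zc q) := by
  have hR0 : 0 < R := by linarith
  have hs0 := sR_pos hR
  have hm : (0 : ℝ) ≤ m := Nat.cast_nonneg m
  have hd : 1 ≤ R ^ δ := Real.one_le_rpow hR hδ
  have hbig : ∀ (N : ℕ) (x : Z m), R ^ δ ≤ ‖x‖ → wt N x ≤ ((R ^ δ) ^ N)⁻¹ := by
    intro N x hx
    unfold wt
    refine inv_anti₀ (by positivity) (pow_le_pow_left₀ (by positivity) (by linarith) N)
  have hadd : ∀ x : Z m, wt (N2 + (m + 3)) x = wt N2 x * wt (m + 3) x := by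
    intro x
    unfold wt
    rw [pow_add, mul_inv]
  by_cases hz : ‖z - Real.sqrt R • zc q‖ ≤ ((m : ℝ) + 1) * R ^ (1 / 2 + δ)
  · have h1 : ¬ near R δ W z := fun h => hI ⟨W, z, rfl, hz, h⟩
    unfold near at h1
    have h2 := hbig N2 _ (not_le.1 h1).le
    rw [hadd]
    refine mul_le_mul h2 ?_ (by have := wt_pos N2 (sR R • z - zc q); have := wt_pos (m + 3) (sR R • z - zc q); positivity) (by positivity)
    exact mul_le_of_le_one_left (wt_pos _ _).le (wt_le_one _ _)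
  · have h1 : z - Real.sqrt R • zc q = Real.sqrt R • (sR R • z - zc q) := by
      rw [smul_sub, smul_smul]
      unfold sR
      rw [mul_inv_cancel₀ (Real.sqrt_pos.2 hR0).ne', one_smul]
    rw [h1, norm_smul, Real.norm_of_nonneg (Real.sqrt_nonneg R), Real.rpow_add hR0,
      ← Real.sqrt_eq_rpow] at hz
    have h2 : R ^ δ ≤ ‖sR R • z - zc q‖ := by
      by_contra h3
      apply hz
      have h4 : ‖sR R • z - zc q‖ ≤ R ^ δ := (not_le.1 h3).le
      calc Real.sqrt R * ‖sR R • z - zc q‖ ≤ Real.sqrt R * R ^ δ :=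
            mul_le_mul_of_nonneg_left h4 (Real.sqrt_nonneg R)
        _ ≤ ((m : ℝ) + 1) * (Real.sqrt R * R ^ δ) :=
            le_mul_of_one_le_left (by positivity) (by linarith)
    have h3 := hbig N2 _ h2
    rw [hadd, ← mul_assoc]
    refine mul_le_mul_of_nonneg_right ?_ (wt_pos _ _).le
    calc wt N2 (fc R δ W.1 z - zc W.2) * wt N2 (sR R • z - zc q) ≤
        1 * ((R ^ δ) ^ N2)⁻¹ := mul_le_mul (wt_le_one _ _) h3 (wt_pos _ _).le zero_le_one
      _ = _ := one_mul _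

end Pool.Agent.H61.G.L2Q
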