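import Pool.Agent.H61.G.Basic

/-!
Theorem G (MP_ee74d2_an), row SSB: stability of sub-sums, narrow planks.
-/

set_option autoImplicit false

namespace Pool.Agent.H61.G.SSB

open MeasureTheory Set Pool.Agent.H83.G Pool.Agent.H61.G
open scoped ENNReal NNReal RealInnerProductSpace

/-- the numbers -/
private theorem arith {m : ℕ} {R s r A a1 a2 a3 a4 a5 : ℝ} (hR : 1 ≤ R) (hs : 0 < s)
    (hr : 1 ≤ r) (h1 : 0 ≤ a1) (h2 : 0 ≤ a2) (h3 : 0 ≤ a3) (h5 : 0 ≤ a5)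
    {card : ℝ} (hcard : card ≤ a3 * (1 + 2 * s / (s / r)) ^ m) :
    a1 * (a2 * (card * ((a4 * (s / r / sR R) ^ m * A) ^ 2 *
      ((s⁻¹) ^ (m + 2) * (a5 * ((r⁻¹)⁻¹) ^ (m + 2)))))) ≤
    (a1 * a2 * a3 * 3 ^ m * a4 ^ 2 * a5) * (A ^ 2 * (R * s ^ 2 / r) ^ m * (r / s) ^ (m + 2)) := by
  have hr0 : 0 < r := by linarith
  have hs0 := sR_pos hR
  have e1 : 2 * s / (s / r) = 2 * r := by field_simp
  rw [e1] at hcard
  have e2 : card ≤ a3 * (3 * r) ^ m := by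
    refine hcard.trans (mul_le_mul_of_nonneg_left ?_ h3)
    exact pow_le_pow_left₀ (by positivity) (by linarith) m
  have e3 : (s / r / sR R) ^ 2 = s ^ 2 * R / r ^ 2 := by
    have h6 := sR_sq hR
    have h7 : sR R ^ 2 ≠ 0 := by positivity
    have h8 : R = 1 / sR R ^ 2 := by
      rw [eq_div_iff h7, mul_comm]
      exact h6
    rw [div_pow, div_pow]
    conv_rhs => rw [h8]
    field_simp
  have e4 : (a4 * (s / r / sR R) ^ m * A) ^ 2 = a4 ^ 2 * A ^ 2 * (s ^ 2 * R / r ^ 2) ^ m := by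
    rw [← e3]
    ring
  rw [e4, inv_inv]
  have e5 : (3 * r) ^ m * ((s ^ 2 * R / r ^ 2) ^ m) = 3 ^ m * (R * s ^ 2 / r) ^ m := by
    rw [← mul_pow, ← mul_pow]
    congr 1
    field_simp
  have e6 : (s⁻¹) ^ (m + 2) * r ^ (m + 2) = (r / s) ^ (m + 2) := by
    rw [← mul_pow]
    congr 1
    field_simp
  calc a1 * (a2 * (card * (a4 ^ 2 * A ^ 2 * (s ^ 2 * R / r ^ 2) ^ m *
      ((s⁻¹) ^ (m + 2) * (a5 * r ^ (m + 2)))))) ≤
      a1 * (a2 * ((a3 * (3 * r) ^ m) * (a4 ^ 2 * A ^ 2 * (s ^ 2 * R / r ^ 2) ^ m *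
      ((s⁻¹) ^ (m + 2) * (a5 * r ^ (m + 2)))))) := by
        refine mul_le_mul_of_nonneg_left (mul_le_mul_of_nonneg_left
          (mul_le_mul_of_nonneg_right e2 ?_) h2) h1
        have : 0 ≤ R := by linarith
        positivity
    _ = a1 * a2 * a3 * a4 ^ 2 * a5 * A ^ 2 * ((3 * r) ^ m * ((s ^ 2 * R / r ^ 2) ^ m)) *
        ((s⁻¹) ^ (m + 2) * r ^ (m + 2)) := by ring
    _ = _ := by
        rw [e5, e6]
        ring

theorem pf_SSB (hLO : T_LO) (hKSP : T_KSP) (hSPK : T_SPK) (hPUS : T_PUS) (hPUB : T_PUB)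
    (hCPS : T_CPS) (hLOA : T_LOA) (hWT2 : T_WT2) (hLOI : T_LOI) : T_SSB := by
  classical
  intro m L β D hβ hD hL
  obtain ⟨CS, hCS, hS⟩ := hSPK m L β hβ
  obtain ⟨CK, hCK, hK⟩ := hKSP m L (by omega)
  obtain ⟨Cβ, hCβ, hB⟩ := hPUB m L β hβ
  obtain ⟨hP1, -, CP, hCP, -, hP5, -⟩ := hPUS m
  obtain ⟨CL, hLOc⟩ := hLO m (m + 3) ⌈CP * (1 + 4) ^ m⌉₊ 2 le_rfl (by norm_num)
  obtain ⟨CW, hW1, -, -⟩ := hWT2 m (m + 3) le_rfl
  set K0 : ℝ := CP * (2 + D) ^ m * (Cβ * CK * CK * (D * CS)) with hK0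
  refine ⟨2 ^ (m + 3) * CL * CP * 3 ^ m * K0 ^ 2 * CW + 1, by positivity, ?_⟩
  intro κ R A G G' I hκ0 hκ hR hA hG hSub φ hφ η s r z₀ hs hs1 hr hrR hrs
  obtain ⟨hS1, hS2, hS3⟩ := hSub
  have hr0 : 0 < r := by linarith
  have hs0 : 0 < sR R := sR_pos hR
  set σ : ℝ := s / r with hσ
  have hσ0 : 0 < σ := div_pos hs hr0
  have hσs : σ ≤ s := div_le_self hs.le hr
  have hσR : sR R ≤ σ := by
    unfold sR
    rw [hσ, le_div_iff₀ hr0, ← div_eq_inv_mul, div_le_iff₀ (Real.sqrt_pos.2 (by linarith))]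
    rw [div_le_iff₀ hs] at hrs
    linarith
  have hrσ : r * σ = s := by
    rw [hσ]
    field_simp
  have hφz : ∀ x, 1 ≤ ‖x‖ → φ x = 0 := hφ.2.1
  have hβz : ∀ x, 1 ≤ ‖x‖ → β x = 0 := hβ.2.1
  -- the sum
  have hTC' : TC (fun ζ => ∑ k ∈ I, G' k ζ) := tc_sum hS1
  have hsup' : ∀ ζ : Z m, ∑ k ∈ I, G' k ζ ≠ 0 → 1 / 4 ≤ ζ.1 ∧ ζ.1 ≤ 8 := by
    intro ζ hζ
    obtain ⟨k, hk, hk2⟩ := Finset.exists_ne_zero_of_sum_ne_zero hζ
    exact ⟨(hS2 k hk ζ hk2).1, (hS2 k hk ζ hk2).2.1⟩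
  set H : Z m → ℂ := fun ζ => cp φ η s ζ * ∑ k ∈ I, G' k ζ with hH
  have hHTC : TC H := hCPS m φ η s _ hφ.1 hs hTC' (fun ζ hζ => (hsup' ζ hζ).1)
  have hHs : ∀ ζ, H ζ ≠ 0 → 1 / 4 ≤ ζ.1 ∧ ζ.1 ≤ 8 := by
    intro ζ hζ
    exact hsup' ζ (right_ne_zero_of_mul hζ)
  -- the caps
  have hfin := near_finite hPUS m σ (2 * s) hσ0 (by positivity) η
  set J : Finset (Fin m → ℤ) := hfin.toFinset with hJ
  have hJm : ∀ q, q ∈ J ↔ ‖ctr σ q - η‖ ≤ 2 * s := by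
    intro q
    rw [hJ, Set.Finite.mem_toFinset]
    rfl
  have hJc : (J.card : ℝ) ≤ CP * (1 + 2 * s / σ) ^ m :=
    hP5 σ (2 * s) η J hσ0 (by positivity) (fun k hk => (hJm k).1 hk)
  have hpart : ∀ ζ, H ζ = ∑ q ∈ J, cp β (ctr σ q) σ ζ * H ζ := by
    intro ζ
    by_cases hζ : H ζ = 0
    · rw [hζ]
      simp
    · have hc : cp φ η s ζ ≠ 0 := left_ne_zero_of_mul hζ
      have hx := cp_ne hφz hs hc
      have h1 := (hP1 β σ hβ hσ0).1 (ζ.1⁻¹ • ζ.2.1)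
      have h2 : HasSum (fun k => β (σ⁻¹ • (ζ.1⁻¹ • ζ.2.1 - ctr σ k)))
          (∑ q ∈ J, β (σ⁻¹ • (ζ.1⁻¹ • ζ.2.1 - ctr σ q))) := by
        refine hasSum_sum_of_ne_finset_zero fun q hq => ?_
        by_contra h3
        apply hq
        rw [hJm]
        have h4 := cp_ne (φ := β) (η := ctr σ q) hβz hσ0 (ζ := ζ) h3
        have h5 : ctr σ q - η = (ζ.1⁻¹ • ζ.2.1 - η) - (ζ.1⁻¹ • ζ.2.1 - ctr σ q) := by abel
        rw [h5]
        refine (norm_sub_le _ _).trans ?_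
        linarith
      have h3 := h2.unique h1
      have h4 : ∑ q ∈ J, cp β (ctr σ q) σ ζ * H ζ =
          (∑ q ∈ J, β (σ⁻¹ • (ζ.1⁻¹ • ζ.2.1 - ctr σ q))) * H ζ := by
        rw [Finset.sum_mul]
        rfl
      rw [h4, h3, one_mul]
  set GG : (Fin m → ℤ) → Z m → ℂ := fun q ζ => cp β (ctr σ q) σ ζ * H ζ with hGG
  have hGTC : ∀ q ∈ J, TC (GG q) := fun q _ =>
    hCPS m β (ctr σ q) σ H hβ.1 hσ0 hHTC (fun ζ hζ => (hHs ζ hζ).1)
  have hTPsum : ∀ z, TP φ η s (fun ζ => ∑ k ∈ I, G' k ζ) z = ∑ q ∈ J, TF (GG q) z := by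
    intro z
    rw [← TF_sum hGTC z]
    unfold TP
    congr 1
    funext ζ
    exact hpart ζ
  -- local orthogonality
  set x : Z m := r⁻¹ • Lo η s z₀ with hx
  have hLO1 := hLOc (Fin m → ℤ) J GG (fun q => ctr σ q) σ s r η x hσ0 hs hr
    (by rw [mul_assoc, hrσ]; linarith)
    (fun q hq => by rw [mul_assoc, hrσ]; exact (hJm q).1 hq) hGTC
    (fun q _ ζ hζ => ⟨(hHs ζ (right_ne_zero_of_mul hζ)).1, (hHs ζ (right_ne_zero_of_mul hζ)).2,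
      by have := cp_ne hβz hσ0 (left_ne_zero_of_mul hζ); linarith⟩)
    (fun y J' _ hy => by
      have h1 := hP5 σ (4 * σ) y J' hσ0 (by positivity) (fun k hk => by
        have := hy k hk
        rw [norm_sub_rev]
        linarith)
      rw [mul_div_assoc, div_self hσ0.ne', mul_one] at h1
      have h2 := h1.trans (Nat.le_ceil _)
      exact_mod_cast h2)
  -- the pointwise bound
  have hpt : ∀ q ∈ J, ∀ z, ‖TF (GG q) z‖ ≤ K0 * (σ / sR R) ^ m * A := by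
    intro q hq z
    set Iq : Finset (Fin m → ℤ) := I.filter fun k => ‖ctr (sR R) k - ctr σ q‖ ≤ (1 + D) * σ
      with hIq
    have hIm : ∀ k ∈ Iq, k ∈ I := fun k hk => (Finset.mem_filter.1 hk).1
    have hTk : ∀ k ∈ I, TC (fun ζ => cp φ η s ζ * G' k ζ) := fun k hk =>
      hCPS m φ η s _ hφ.1 hs (hS1 k hk) (fun ζ hζ => (hS2 k hk ζ hζ).1)
    have hTkβ : ∀ k ∈ I, TC (fun ζ => cp β (ctr σ q) σ ζ * (cp φ η s ζ * G' k ζ)) := fun k hk =>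
      hCPS m β (ctr σ q) σ _ hβ.1 hσ0 (hTk k hk)
        (fun ζ hζ => (hS2 k hk ζ (right_ne_zero_of_mul hζ)).1)
    have h1 : GG q = fun ζ => ∑ k ∈ Iq, cp β (ctr σ q) σ ζ * (cp φ η s ζ * G' k ζ) := by
      funext ζ
      simp only [hGG, hH]
      rw [Finset.mul_sum, Finset.mul_sum]
      symm
      refine Finset.sum_subset (fun k hk => hIm k hk) fun k hk hk2 => ?_
      by_contra h2
      apply hk2
      rw [hIq, Finset.mem_filter]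
      refine ⟨hk, ?_⟩
      have h3 := cp_ne hβz hσ0 (left_ne_zero_of_mul h2)
      have h4 := (hS2 k hk ζ (right_ne_zero_of_mul (right_ne_zero_of_mul h2))).2.2
      have h5 : ctr (sR R) k - ctr σ q = (ζ.1⁻¹ • ζ.2.1 - ctr σ q) -
          (ζ.1⁻¹ • ζ.2.1 - ctr (sR R) k) := by abel
      rw [h5]
      refine (norm_sub_le _ _).trans ?_
      have h6 : D * sR R ≤ D * σ := mul_le_mul_of_nonneg_left hσR (by linarith)
      linarith
    have h2 : TF (GG q) z = ∑ k ∈ Iq, TF (fun ζ => cp β (ctr σ q) σ ζ *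
        (cp φ η s ζ * G' k ζ)) z := by
      rw [h1]
      exact TF_sum (G := fun k ζ => cp β (ctr σ q) σ ζ * (cp φ η s ζ * G' k ζ))
        (fun k hk => hTkβ k (hIm k hk)) z
    have h3 : ∀ k ∈ Iq, ‖TF (fun ζ => cp β (ctr σ q) σ ζ * (cp φ η s ζ * G' k ζ)) z‖ ≤
        Cβ * CK * CK * (D * CS) * A := by
      intro k hk
      have hk' := hIm k hk
      have h4 : ∀ z, ‖TF (G' k) z‖ ≤ D * (CS * A) := by
        intro z
        refine (hS3 k hk' z).trans (mul_le_mul_of_nonneg_left ?_ (by linarith))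
        exact (hS κ R A G hκ0 hκ hR hA hG).1 k z
      have h5 := hK φ hφ η s _ (G' k) hs (hS1 k hk')
        (fun ζ hζ => ⟨(hS2 k hk' ζ hζ).1, (hS2 k hk' ζ hζ).2.1⟩) h4
      have h6 := hK _ hB (ctr σ q) σ _ (fun ζ => cp φ η s ζ * G' k ζ) hσ0 (hTk k hk')
        (fun ζ hζ => ⟨(hS2 k hk' ζ (right_ne_zero_of_mul hζ)).1,
          (hS2 k hk' ζ (right_ne_zero_of_mul hζ)).2.1⟩) h5 z
      have h7 : TF (fun ζ => cp β (ctr σ q) σ ζ * (cp φ η s ζ * G' k ζ)) z =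
          ((Cβ : ℝ) : ℂ) * TP (fun x => ((Cβ⁻¹ : ℝ) : ℂ) * β x) (ctr σ q) σ
            (fun ζ => cp φ η s ζ * G' k ζ) z := by
        unfold TP
        rw [← TF_const]
        congr 1
        funext ζ
        have h8 : ((Cβ : ℝ) : ℂ) * ((Cβ⁻¹ : ℝ) : ℂ) = 1 := by
          rw [← Complex.ofReal_mul, mul_inv_cancel₀ (by linarith), Complex.ofReal_one]
        simp only [cp]
        linear_combination (-(β (σ⁻¹ • (ζ.1⁻¹ • ζ.2.1 - ctr σ q)) *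
          (φ (s⁻¹ • (ζ.1⁻¹ • ζ.2.1 - η)) * G' k ζ))) * h8
      rw [h7, norm_mul, Complex.norm_real, Real.norm_of_nonneg (by linarith)]
      calc Cβ * _ ≤ Cβ * (CK * (CK * (D * (CS * A)))) :=
            mul_le_mul_of_nonneg_left h6 (by linarith)
        _ = Cβ * CK * CK * (D * CS) * A := by ring
    have h4 : (Iq.card : ℝ) ≤ CP * ((2 + D) * (σ / sR R)) ^ m := by
      have h5 := hP5 (sR R) ((1 + D) * σ) (ctr σ q) Iq hs0 (by positivity)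
        (fun k hk => (Finset.mem_filter.1 hk).2)
      refine h5.trans (mul_le_mul_of_nonneg_left (pow_le_pow_left₀ (by positivity) ?_ m) hCP.le)
      have h6 : 1 ≤ σ / sR R := (one_le_div hs0).2 hσR
      rw [mul_div_assoc]
      linarith
    rw [h2]
    refine (norm_sum_le _ _).trans ((Finset.sum_le_sum h3).trans ?_)
    rw [Finset.sum_const, nsmul_eq_mul]
    calc (Iq.card : ℝ) * (Cβ * CK * CK * (D * CS) * A) ≤
        (CP * ((2 + D) * (σ / sR R)) ^ m) * (Cβ * CK * CK * (D * CS) * A) :=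
          mul_le_mul_of_nonneg_right h4 (by positivity)
      _ = K0 * (σ / sR R) ^ m * A := by
          rw [hK0, mul_pow]
          ring
  -- the integral of the weight
  have hwint : ∫⁻ z, ENNReal.ofReal (wt (m + 3) (r⁻¹ • Lo η s z - x)) ≤
      ENNReal.ofReal ((s⁻¹) ^ (m + 2) * (CW * ((r⁻¹)⁻¹) ^ (m + 2))) := by
    rw [(hLOI m η s hs).1 (fun z => ENNReal.ofReal (wt (m + 3) (r⁻¹ • z - x)))]
    rw [ENNReal.ofReal_mul (by positivity), ENNReal.ofReal_mul (by positivity),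
      ENNReal.ofReal_coe_nnreal]
    exact mul_le_mul_right (hW1 r⁻¹ x (by positivity)) _
  have hone : ∀ q ∈ J, ∫⁻ z, ‖TF (GG q) z‖ₑ ^ 2 *
      ENNReal.ofReal (wt (m + 3) (r⁻¹ • Lo η s z - x)) ≤
      ENNReal.ofReal ((K0 * (σ / sR R) ^ m * A) ^ 2 *
        ((s⁻¹) ^ (m + 2) * (CW * ((r⁻¹)⁻¹) ^ (m + 2)))) := by
    intro q hq
    rw [ENNReal.ofReal_mul (by positivity)]
    calc ∫⁻ z, ‖TF (GG q) z‖ₑ ^ 2 * ENNReal.ofReal (wt (m + 3) (r⁻¹ • Lo η s z - x)) ≤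
        ∫⁻ z, ENNReal.ofReal ((K0 * (σ / sR R) ^ m * A) ^ 2) *
          ENNReal.ofReal (wt (m + 3) (r⁻¹ • Lo η s z - x)) := by
          refine lintegral_mono fun z => mul_le_mul_left ?_ _
          rw [← ofReal_norm, ← ENNReal.ofReal_pow (norm_nonneg _)]
          exact ENNReal.ofReal_le_ofReal (pow_le_pow_left₀ (norm_nonneg _) (hpt q hq z) 2)
      _ = ENNReal.ofReal ((K0 * (σ / sR R) ^ m * A) ^ 2) *
          ∫⁻ z, ENNReal.ofReal (wt (m + 3) (r⁻¹ • Lo η s z - x)) :=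
          lintegral_const_mul' _ _ ENNReal.ofReal_ne_top
      _ ≤ _ := mul_le_mul_right hwint _
  -- the end
  have hLs : ∀ z ∈ pl η s r z₀, ((1 + 1) ^ (m + 3) : ℝ)⁻¹ ≤
      wt (m + 3) (r⁻¹ • Lo η s z - x) := by
    intro z hz
    refine wt_ge _ _ ?_
    have h1 : r⁻¹ • Lo η s z - x = r⁻¹ • Lo η s (z - z₀) := by
      rw [((hLOA m).1 η s z z₀).2.1, hx, smul_sub]
    rw [h1, norm_smul, norm_inv, Real.norm_eq_abs, abs_of_pos hr0, ← div_eq_inv_mul,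
      div_le_iff₀ hr0, one_mul]
    exact hz
  calc ∫⁻ z in pl η s r z₀, ‖TP φ η s (fun ζ => ∑ k ∈ I, G' k ζ) z‖ₑ ^ 2 ≤
      ∫⁻ z in pl η s r z₀, ENNReal.ofReal (2 ^ (m + 3)) * (‖∑ q ∈ J, TF (GG q) z‖ₑ ^ 2 *
        ENNReal.ofReal (wt (m + 3) (r⁻¹ • Lo η s z - x))) := by
        refine setLIntegral_mono' (pl_meas η s r z₀) fun z hz => ?_
        rw [hTPsum z]
        have h1 := hLs z hz
        have h2 : (1 : ℝ≥0∞) ≤ ENNReal.ofReal (2 ^ (m + 3)) *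
            ENNReal.ofReal (wt (m + 3) (r⁻¹ • Lo η s z - x)) := by
          rw [← ENNReal.ofReal_mul (by positivity), ← ENNReal.ofReal_one]
          refine ENNReal.ofReal_le_ofReal ?_
          have h3 : (2 : ℝ) ^ (m + 3) * ((1 + 1) ^ (m + 3) : ℝ)⁻¹ = 1 := by
            norm_num
          calc (1 : ℝ) = (2 : ℝ) ^ (m + 3) * ((1 + 1) ^ (m + 3) : ℝ)⁻¹ := h3.symm
            _ ≤ _ := mul_le_mul_of_nonneg_left h1 (by positivity)
        calc ‖∑ q ∈ J, TF (GG q) z‖ₑ ^ 2 = ‖∑ q ∈ J, TF (GG q) z‖ₑ ^ 2 * 1 := (mul_one _).symm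
          _ ≤ ‖∑ q ∈ J, TF (GG q) z‖ₑ ^ 2 * (ENNReal.ofReal (2 ^ (m + 3)) *
            ENNReal.ofReal (wt (m + 3) (r⁻¹ • Lo η s z - x))) := mul_le_mul_right h2 _
          _ = _ := by ring
    _ ≤ ∫⁻ z, ENNReal.ofReal (2 ^ (m + 3)) * (‖∑ q ∈ J, TF (GG q) z‖ₑ ^ 2 *
        ENNReal.ofReal (wt (m + 3) (r⁻¹ • Lo η s z - x))) := setLIntegral_le_lintegral _ _
    _ = ENNReal.ofReal (2 ^ (m + 3)) * ∫⁻ z, ‖∑ q ∈ J, TF (GG q) z‖ₑ ^ 2 *
        ENNReal.ofReal (wt (m + 3) (r⁻¹ • Lo η s z - x)) :=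
        lintegral_const_mul' _ _ ENNReal.ofReal_ne_top
    _ ≤ ENNReal.ofReal (2 ^ (m + 3)) * (CL * ∑ q ∈ J, ∫⁻ z, ‖TF (GG q) z‖ₑ ^ 2 *
        ENNReal.ofReal (wt (m + 3) (r⁻¹ • Lo η s z - x))) := mul_le_mul_right hLO1 _
    _ ≤ ENNReal.ofReal (2 ^ (m + 3)) * (CL * ∑ _q ∈ J,
        ENNReal.ofReal ((K0 * (σ / sR R) ^ m * A) ^ 2 *
        ((s⁻¹) ^ (m + 2) * (CW * ((r⁻¹)⁻¹) ^ (m + 2))))) :=
        mul_le_mul_right (mul_le_mul_right (Finset.sum_le_sum hone) _) _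
    _ = ENNReal.ofReal (2 ^ (m + 3) * (CL * (J.card * ((K0 * (σ / sR R) ^ m * A) ^ 2 *
        ((s⁻¹) ^ (m + 2) * (CW * ((r⁻¹)⁻¹) ^ (m + 2))))))) := by
        have hB0 : 0 ≤ (K0 * (σ / sR R) ^ m * A) ^ 2 *
            ((s⁻¹) ^ (m + 2) * (CW * ((r⁻¹)⁻¹) ^ (m + 2))) := by positivity
        generalize (K0 * (σ / sR R) ^ m * A) ^ 2 *
            ((s⁻¹) ^ (m + 2) * (CW * ((r⁻¹)⁻¹) ^ (m + 2))) = B at hB0 ⊢
        have h2 : (0 : ℝ) ≤ 2 ^ (m + 3) := pow_nonneg (by norm_num) _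
        have h3 : (0 : ℝ) ≤ CL := CL.2
        have h4 : (0 : ℝ) ≤ J.card := Nat.cast_nonneg _
        rw [Finset.sum_const, nsmul_eq_mul, ENNReal.ofReal_mul h2, ENNReal.ofReal_mul h3,
          ENNReal.ofReal_mul h4, ENNReal.ofReal_coe_nnreal, ENNReal.ofReal_natCast]
    _ ≤ _ := by
        refine ENNReal.ofReal_le_ofReal ?_
        have h1 := arith (m := m) (R := R) (s := s) (r := r) (A := A) (a1 := 2 ^ (m + 3))
          (a2 := CL) (a3 := CP) (a4 := K0) (a5 := CW) hR hs hr (by positivity) (by positivity)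
          hCP.le (by positivity) hJc
        refine h1.trans ?_
        refine mul_le_mul_of_nonneg_right (by linarith) ?_
        have : 0 ≤ R := by linarith
        positivity

end Pool.Agent.H61.G.SSB
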